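import Mathlib

/-!
Continuous functions of `x` measuring the difference of two continuous functions on `X × K`.
The lemma `theta` is a two variable form of a lemma of the library
(`R_pool_sql_team_39128cda`, `H/MP_e70507/A.lean`).
-/

set_option autoImplicit false
open Set Function Topology Filter TopologicalSpace

namespace Pool.Agent.KS6_59.CP
universe u v w

variable {X : Type u} {K : Type v} {β : Type w} [TopologicalSpace X] [TopologicalSpace K]
  [CompactSpace K] [TopologicalSpace β]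

lemma theta (v : β → C(X × K, ℝ)) (hv : ∀ p, Continuous fun b => v b p) (hi : Injective v) :
    ∃ G : Finset β × ℕ → β × β → X → ℝ, (∀ i, Continuous (G i)) ∧
      (∀ i b, Continuous (G i b)) ∧ (∀ i b x, 0 ≤ G i b x) ∧ (∀ i c, G i (c, c) = 0) ∧
      ∀ S, ∀ b ∈ closure S, ∀ c ∈ closure S, b ≠ c → ∃ i, ↑i.1 ⊆ S ∧ G i (b, c) ≠ 0 := by
  classical
  obtain ⟨ρ, hρ⟩ := PartitionOfUnity.exists_isSubordinate
    (s := {w : C(K × K, ℝ) | ∀ k, w (k, k) = 0})
    (by simpa only [ofPred_forall] using isClosed_iInter fun k =>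
      isClosed_eq (continuous_eval_const _) continuous_const)
    (fun D : Finset K => {w | ∀ k, ∃ d ∈ D, w (k, d) < 1}) (fun D => by
      have := isClosedMap_fst_of_compactSpace _ (isClosed_biInter (s := (D : Set K))
        fun d _ => isClosed_le (continuous_const (y := (1 : ℝ)))
          (g := fun p : C(K × K, ℝ) × K => p.1 (p.2, d)) (by fun_prop))
      convert this.isOpen_compl
      ext w
      simp) fun w hw => by
      obtain ⟨D, hD⟩ := isCompact_univ.elim_finite_subcover (fun d => {k | w (k, d) < 1})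
        (fun d => isOpen_lt (by fun_prop) continuous_const) fun k _ => mem_iUnion.2
          ⟨k, (hw k).trans_lt one_pos⟩
      exact mem_iUnion.2 ⟨D, fun k => by simpa using hD (mem_univ k)⟩
  let W : Finset β × ℕ → C(X, C(K × K, ℝ)) := fun i => ContinuousMap.curry
    ⟨fun p => i.2 * ∑ a ∈ i.1, |v a (p.1, p.2.1) - v a (p.1, p.2.2)|, by fun_prop⟩
  let t : β × β → X → Finset K → ℝ := fun b x D => ∑ d ∈ D, |v b.1 (x, d) - v b.2 (x, d)|
  have t0 : ∀ i b x D, 0 ≤ ρ D (W i x) * t b x D := fun i b x D =>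
    mul_nonneg (ρ.nonneg _ _) (Finset.sum_nonneg fun _ _ => abs_nonneg _)
  have e : ∀ i b x, ∑ᶠ D, ρ D (W i x) * t b x D =
      ∑ D ∈ ρ.finsupport (W i x), ρ D (W i x) * t b x D := fun i b x =>
    (ρ.sum_finsupport_smul_eq_finsum fun D _ => t b x D).symm
  refine ⟨fun i b x => ∑ᶠ D, ρ D (W i x) * t b x D, fun i => continuous_pi fun x => ?_,
    fun i b => continuous_finsum (fun D => by fun_prop) ((ρ.locallyFinite.preimage_continuous
      (W i).continuous).subset fun D x hx => left_ne_zero_of_mul hx),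
    fun i b x => finsum_nonneg (t0 i b x), fun i c => funext fun x => by simp [t],
    fun S b hb c hc h => ?_⟩
  · simp only [e]
    exact continuous_finsetSum _ fun D _ => continuous_const.mul (continuous_finsetSum _
      fun d _ => (((hv _).comp continuous_fst).sub ((hv _).comp continuous_snd)).abs)
  obtain ⟨⟨x, k⟩, h⟩ := DFunLike.ne_iff.1 (hi.ne h)
  obtain ⟨T, hT⟩ := (isClosed_eq (f := fun d => v b (x, d)) (g := fun d => v c (x, d))
    (by fun_prop) (by fun_prop)).isCompact.elim_finite_subcover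
    (fun j : ↥S × ℕ => {d | 1 < j.2 * |v j.1 (x, k) - v j.1 (x, d)|})
    (fun j => isOpen_lt continuous_const (by fun_prop)) fun d hd => by
      obtain ⟨a, a1, a2⟩ : ∃ a ∈ S, v a (x, k) ≠ v a (x, d) := by
        by_contra hcon
        push Not at hcon
        have h1 : ∀ b ∈ closure S, v b (x, k) = v b (x, d) := fun b hb =>
          closure_minimal (fun a ha => hcon a ha) (isClosed_eq (hv _) (hv _)) hb
        exact h ((h1 b hb).trans (hd.trans (h1 c hc).symm))
      have := abs_pos.2 (sub_ne_zero.2 a2)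
      obtain ⟨m, hm⟩ := exists_nat_gt (1 / |v a (x, k) - v a (x, d)|)
      exact mem_iUnion.2 ⟨(⟨a, a1⟩, m), (div_lt_iff₀ this).1 hm⟩
  refine ⟨(T.image (·.1.1), T.sup (·.2)), fun a ha => ?_, fun h0 => ?_⟩
  · obtain ⟨j, -, rfl⟩ := Finset.mem_image.1 ha
    exact j.1.2
  set i := (T.image (·.1.1), T.sup (·.2))
  obtain ⟨D, hD⟩ := ρ.exists_pos (x := W i x) fun k => by simp [W]
  obtain ⟨d, d1, d2⟩ := hρ D (subset_tsupport _ hD.ne') k
  have h1 := (Finset.sum_eq_zero_iff_of_nonneg fun D _ => t0 i (b, c) x D).1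
    ((e i (b, c) x).symm.trans (congrFun h0 x)) D ((ρ.mem_finsupport _).2 hD.ne')
  have h2 := (Finset.sum_eq_zero_iff_of_nonneg fun _ _ => abs_nonneg _).1
    ((mul_eq_zero.1 h1).resolve_left hD.ne') d d1
  obtain ⟨j, j1, j2⟩ := mem_iUnion₂.1 (hT (a := d) (sub_eq_zero.1 (abs_eq_zero.1 h2)))
  exact d2.not_gt (lt_of_lt_of_le j2 (mul_le_mul (Nat.cast_le.2 (Finset.le_sup (f := (·.2)) j1))
    (Finset.single_le_sum (f := fun a => |v a (x, k) - v a (x, d)|) (fun _ _ => abs_nonneg _)
      (Finset.mem_image_of_mem _ j1)) (abs_nonneg _) (Nat.cast_nonneg _)))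

end Pool.Agent.KS6_59.CP
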