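import Mathlib
import Pool.Agent.KS6_59.CP.Theta

set_option autoImplicit false
open Set Function Topology Filter TopologicalSpace

namespace Pool.Agent.KS6_59.CP
universe u v w w'

/-- every point of the closure of `A` is in the closure of a subset of `A` of cardinality at
most `|I|` -/
def Tight (I : Type w) (Z : Type u) [TopologicalSpace Z] : Prop :=
  ∀ (A : Set Z) (z : Z), z ∈ closure A → ∃ g : I → Z, range g ⊆ A ∧ z ∈ closure (range g)

/-- the density is at most `|I|` -/
def Dens (I : Type w) (Z : Type u) [TopologicalSpace Z] : Prop :=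
  IsEmpty Z ∨ ∃ g : I → Z, DenseRange g

/-- the weight is at most `|I|` -/
def Wt (I : Type w) (Z : Type u) [TopologicalSpace Z] : Prop :=
  ∃ B : I → Set Z, IsTopologicalBasis (range B)

section card

variable (I : Type w) [Infinite I]

omit [Infinite I] in
lemma exists_surj {J : Type w'} [Nonempty J]
    (h : Cardinal.lift.{w} (Cardinal.mk J) ≤ Cardinal.lift.{w'} (Cardinal.mk I)) :
    ∃ f : I → J, Surjective f := by
  obtain ⟨e⟩ := Cardinal.lift_mk_le'.1 h
  exact ⟨invFun e, invFun_surjective e.injective⟩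

lemma surj_finset : ∃ f : I → Finset I, Surjective f :=
  exists_surj I (by rw [Cardinal.mk_finset_of_infinite])

lemma surj_prod : ∃ f : I → I × I, Surjective f :=
  exists_surj I (by
    rw [Cardinal.mk_prod, Cardinal.lift_id, Cardinal.lift_id,
      Cardinal.mul_eq_self (Cardinal.aleph0_le_mk I)])

lemma surj_nat : ∃ f : I → ℕ, Surjective f :=
  exists_surj I (by
    rw [Cardinal.mk_nat, Cardinal.lift_aleph0]
    exact Cardinal.aleph0_le_lift.2 (Cardinal.aleph0_le_mk I))

end card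

/-- closing off a set under set valued functions of finite sets -/
lemma close {B : Type u} (I : Type w) [Infinite I] (h : Finset B → I → B) :
    ∃ S : I → B, range S ⊆ ⋃ R, range (h R) ∧
      ∀ R : Finset B, ↑R ⊆ range S → range (h R) ⊆ range S := by
  classical
  obtain ⟨f1, hf1⟩ := surj_finset I
  obtain ⟨f2, hf2⟩ := surj_prod I
  obtain ⟨f3, hf3⟩ := surj_nat I
  obtain ⟨f4, hf4⟩ : ∃ f : I → Option I, Surjective f :=
    exists_surj I (by
      rw [Cardinal.mk_option, Cardinal.add_one_eq (Cardinal.aleph0_le_mk I)])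
  -- the next family
  let g : (I → B) → I → B := fun T i =>
    match f4 (f2 i).1 with
    | none => T (f2 i).2
    | some j => h ((f1 j).image T) (f2 i).2
  have g1 : ∀ T, range T ⊆ range (g T) := by
    rintro T _ ⟨i, rfl⟩
    obtain ⟨a, ha⟩ := hf4 none
    obtain ⟨b, hb⟩ := hf2 (a, i)
    exact ⟨b, by simp only [g, hb, ha]⟩
  have g2 : ∀ T (R : Finset B), ↑R ⊆ range T → range (h R) ⊆ range (g T) := by
    rintro T R hR _ ⟨i, rfl⟩
    obtain ⟨F, hF⟩ : ∃ F : Finset I, F.image T = R := by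
      obtain ⟨F, hF⟩ := (Finset.subset_set_image_iff (s := univ) (f := T) (t := R)).1
        (by rwa [image_univ])
      exact ⟨F, hF.2⟩
    obtain ⟨j, hj⟩ := hf1 F
    obtain ⟨a, ha⟩ := hf4 (some j)
    obtain ⟨b, hb⟩ := hf2 (a, i)
    exact ⟨b, by simp only [g, hb, ha, hj, hF]⟩
  have g3 : ∀ T, range T ⊆ ⋃ R, range (h R) → range (g T) ⊆ ⋃ R, range (h R) := by
    rintro T hT _ ⟨i, rfl⟩
    simp only [g]
    cases f4 (f2 i).1 with
    | none => exact hT ⟨_, rfl⟩
    | some j => exact mem_iUnion.2 ⟨_, _, rfl⟩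
  let T : ℕ → I → B := fun k => g^[k] (h ∅)
  have hT : ∀ k, T (k + 1) = g (T k) := fun k => iterate_succ_apply' g k _
  have hm : Monotone fun k => range (T k) := monotone_nat_of_le_succ fun k => by
    rw [hT]; exact g1 _
  have hS : ∀ k, range (T k) ⊆ ⋃ R, range (h R) := fun k => by
    induction k with
    | zero => exact subset_iUnion (fun R => range (h R)) ∅
    | succ k ih => rw [hT]; exact g3 _ ih
  refine ⟨fun i => T (f3 (f2 i).1) (f2 i).2, ?_, fun R hR => ?_⟩
  · rintro _ ⟨i, rfl⟩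
    exact hS _ ⟨_, rfl⟩
  · have h1 : range (fun i => T (f3 (f2 i).1) (f2 i).2) = ⋃ k, range (T k) := by
      ext b
      simp only [mem_range, mem_iUnion]
      constructor
      · rintro ⟨i, rfl⟩
        exact ⟨_, _, rfl⟩
      · rintro ⟨k, i, rfl⟩
        obtain ⟨a, ha⟩ := hf3 k
        obtain ⟨b, hb⟩ := hf2 (a, i)
        exact ⟨b, by simp only [hb, ha]⟩
    rw [h1] at hR ⊢
    obtain ⟨k, hk⟩ := hm.directed_le.exists_mem_subset_of_finset_subset_biUnion hR
    refine Subset.trans ?_ (subset_iUnion (fun k => range (T k)) (k + 1))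
    show range (h R) ⊆ range (T (k + 1))
    rw [hT]
    exact g2 _ _ hk

lemma sum {X : Type u} {β : Type w'} [TopologicalSpace X] [TopologicalSpace β]
    {G : Finset β × ℕ → β → X → ℝ} (g1 : ∀ i, Continuous (G i))
    (g2 : ∀ i b, Continuous (G i b)) (g3 : ∀ i b x, 0 ≤ G i b x) {c : β} (g4 : ∀ i, G i c = 0)
    (F : Finset (Finset β × ℕ)) : ∃ θ : β → X → ℝ, Continuous θ ∧ (∀ b, Continuous (θ b)) ∧
      θ c = 0 ∧ ∀ b, ∀ i ∈ F, θ b = 0 → G i b = 0 := by
  refine ⟨fun b x => ∑ i ∈ F, G i b x, continuous_pi fun x => continuous_finsetSum _ fun i _ =>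
    (continuous_apply x).comp (g1 i), fun b => continuous_finsetSum _ fun i _ => g2 i b,
    funext fun x => by simp [g4], fun b i hi h => funext fun x => ?_⟩
  exact (Finset.sum_eq_zero_iff_of_nonneg fun i _ => g3 i b x).1 (congrFun h x) i hi

variable {X : Type u} {K : Type v} {β : Type w'} [TopologicalSpace X] [TopologicalSpace K]
  [CompactSpace K] [TopologicalSpace β] [CompactSpace β]

lemma tight (I : Type w) [Infinite I] (v : β → C(X × K, ℝ)) (hv : ∀ p, Continuous fun b => v b p)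
    (hi : Injective v) (H : ∀ θ : β → X → ℝ, Continuous θ → (∀ b, Continuous (θ b)) →
      ∀ (S : Set β) c, c ∈ closure S → ∃ g : I → β, range g ⊆ S ∧ θ c ∈ closure (θ '' range g)) :
    Tight I β := by
  classical
  intro S c hc
  obtain ⟨G, g1, g2, g3, g4, g5⟩ := theta v hv hi
  obtain ⟨f2, hf2⟩ := surj_prod I
  obtain ⟨f3, hf3⟩ := surj_nat I
  have k1 : ∀ i, Continuous fun b => G i (b, c) := fun i => (g1 i).comp (by fun_prop)
  choose θ t1 t2 t3 t4 using fun q : Finset β × ℕ => sum (G := fun i b => G i (b, c)) k1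
    (fun i b => g2 i (b, c)) (fun i b x => g3 i (b, c) x) (c := c) (fun i => g4 i c)
    ((insert c q.1).powerset ×ˢ Finset.range (q.2 + 1))
  choose h' h1 h3 using fun q => H _ (t1 q) (t2 q) S c hc
  obtain ⟨T, m2, m3⟩ := close I fun R i => h' (R, f3 (f2 i).1) (f2 i).2
  have m4 : ∀ (R : Finset β) (n : ℕ), ↑R ⊆ range T → range (h' (R, n)) ⊆ range T := by
    rintro R n hR _ ⟨i, rfl⟩
    obtain ⟨a, ha⟩ := hf3 n
    obtain ⟨b, hb⟩ := hf2 (a, i)
    exact m3 R hR ⟨b, by simp only [hb, ha]⟩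
  have m5 : range T ⊆ S := by
    refine m2.trans (iUnion_subset fun R => ?_)
    rintro _ ⟨i, rfl⟩
    exact h1 _ ⟨_, rfl⟩
  refine ⟨T, m5, by_contra fun hn => ?_⟩
  obtain ⟨F, hF⟩ := isClosed_closure.isCompact.elim_finite_subcover (s := closure (range T))
    (fun i : {i : Finset β × ℕ // ↑i.1 ⊆ insert c (range T)} => {b | G i (b, c) ≠ 0})
    (fun i => isOpen_ne_fun (k1 _) continuous_const) fun b hb => by
      obtain ⟨i, i1, i2⟩ := g5 (insert c (range T)) b (closure_mono (subset_insert _ _) hb) c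
        (subset_closure (mem_insert _ _)) fun e => hn (e ▸ hb)
      exact mem_iUnion.2 ⟨⟨i, i1⟩, i2⟩
  let R := (F.biUnion (·.1.1)).erase c
  let n := F.sup (·.1.2)
  obtain ⟨b, b1, b2⟩ := (t1 (R, n)).isClosedMap.closure_image_subset _ (h3 (R, n))
  obtain ⟨i, i1, i2⟩ := mem_iUnion₂.1 (hF (closure_mono (m4 R n fun a ha => by
    obtain ⟨e, ha⟩ := Finset.mem_erase.1 ha
    obtain ⟨j, -, ha⟩ := Finset.mem_biUnion.1 ha
    exact (j.2 ha).resolve_left e) b1))
  refine i2 (t4 (R, n) b i ?_ (b2.trans (t3 (R, n))))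
  rw [Finset.mem_product, Finset.mem_powerset, Finset.mem_range, Nat.lt_succ_iff]
  refine ⟨fun a ha => ?_, Finset.le_sup (f := fun i => i.1.2) i1⟩
  rw [Finset.mem_insert]
  exact (eq_or_ne a c).imp id fun e => Finset.mem_erase.2 ⟨e, Finset.mem_biUnion.2 ⟨i, i1, ha⟩⟩

end Pool.Agent.KS6_59.CP
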