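import Mathlib
import Pool.Agent.KS6_59.CP.Tight

set_option autoImplicit false
open Set Function Topology Filter TopologicalSpace

namespace Pool.Agent.KS6_59.CP
universe u v w w' w''

/-- A compact space with a point separating family of continuous maps to regular spaces of
weight at most `|I|` has weight at most `|I|`, if the family has at most `|I|` members. -/
lemma wt_of_separating {I : Type w} {β : Type w'} [TopologicalSpace β] [CompactSpace β]
    {A : Type u} (hA : ∃ s : I → Finset (A × I), Surjective s)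
    {Z : A → Type v} [∀ a, TopologicalSpace (Z a)] [∀ a, T2Space (Z a)] [∀ a, RegularSpace (Z a)]
    (hZ : ∀ a, Wt I (Z a)) (Φ : ∀ a, β → Z a) (hΦ : ∀ a, Continuous (Φ a))
    (hs : ∀ b c, (∀ a, Φ a b = Φ a c) → b = c) : Wt I β := by
  classical
  choose e he using hZ
  obtain ⟨s, hs'⟩ := hA
  let B : Finset (A × I) → Set β := fun F => ⋂ p ∈ F, Φ p.1 ⁻¹' (e p.1 p.2)
  have hB : IsTopologicalBasis (range B) := by
    refine isTopologicalBasis_of_isOpen_of_nhds ?_ fun z U hz hU => ?_
    · rintro _ ⟨F, rfl⟩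
      exact isOpen_biInter_finset fun p _ => ((he p.1).isOpen ⟨_, rfl⟩).preimage (hΦ _)
    · obtain ⟨F, hF⟩ := hU.isClosed_compl.isCompact.elim_finite_subcover
        (fun p : {p : A × I // Φ p.1 z ∈ e p.1 p.2} =>
          {b | Φ p.1.1 b ∉ closure (e p.1.1 p.1.2)})
        (fun p => (isClosed_closure.preimage (hΦ _)).isOpen_compl) fun b hb => by
          have hne : b ≠ z := fun h => hb (h ▸ hz)
          obtain ⟨a, ha⟩ : ∃ a, Φ a b ≠ Φ a z := by
            by_contra hcon
            push Not at hcon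
            exact hne (hs _ _ hcon)
          obtain ⟨V, ⟨hV1, hV2⟩, hV3⟩ := (closed_nhds_basis (Φ a z)).mem_iff.1
            (isOpen_ne.mem_nhds (Ne.symm ha : Φ a z ≠ Φ a b))
          obtain ⟨_, ⟨i, rfl⟩, hi1, hi2⟩ := (he a).mem_nhds_iff.1 hV1
          exact mem_iUnion.2 ⟨⟨(a, i), hi1⟩, fun h =>
            hV3 (closure_minimal hi2 hV2 h) rfl⟩
      refine ⟨_, ⟨F.image (·.1), rfl⟩, ?_, fun b hb => ?_⟩
      · simp only [B, mem_iInter]
        rintro p hp
        obtain ⟨q, -, rfl⟩ := Finset.mem_image.1 hp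
        exact q.2
      · by_contra hbU
        obtain ⟨p, p1, p2⟩ := mem_iUnion₂.1 (hF hbU)
        simp only [B, mem_iInter] at hb
        exact p2 (subset_closure (hb p.1 (Finset.mem_image_of_mem _ p1)))
  refine ⟨B ∘ s, ?_⟩
  rwa [hs'.range_comp]

lemma wt_of_secondCountable (I : Type w) [Infinite I] {β : Type w'} [TopologicalSpace β]
    [SecondCountableTopology β] : Wt I β := by
  obtain ⟨f, hf⟩ := surj_nat I
  obtain ⟨g, hg⟩ := ((countable_countableBasis β).insert ∅).exists_eq_range (insert_nonempty _ _)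
  exact ⟨g ∘ f, by rw [hf.range_comp, ← hg]; exact (isBasis_countableBasis β).insert_empty⟩

/-- `Cp X` is the set of continuous real functions on `X` with the topology of pointwise
convergence (the subspace topology inherited from the product `X → ℝ`). -/
abbrev Cp (X : Type u) [TopologicalSpace X] : Type u := {f : X → ℝ // Continuous f}

lemma surj_big (I : Type w) [Infinite I] :
    ∃ s : I → Finset ((((Finset I × ℕ) × I)) × I), Surjective s := by
  classical
  obtain ⟨f1, h1⟩ := surj_finset I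
  obtain ⟨f2, h2⟩ := surj_prod I
  obtain ⟨f3, h3⟩ := surj_nat I
  let g : I → ((Finset I × ℕ) × I) × I := fun i =>
    (((f1 (f2 (f2 (f2 i).1).1).1, f3 (f2 (f2 (f2 i).1).1).2), (f2 (f2 i).1).2), (f2 i).2)
  have hg : Surjective g := by
    rintro ⟨⟨⟨F, n⟩, j⟩, k⟩
    obtain ⟨a, ha⟩ := h1 F
    obtain ⟨b, hb⟩ := h3 n
    obtain ⟨c, hc⟩ := h2 (a, b)
    obtain ⟨d, hd⟩ := h2 (c, j)
    obtain ⟨e, he⟩ := h2 (d, k)
    exact ⟨e, by simp only [g, he, hd, hc, hb, ha]⟩
  refine ⟨fun i => (f1 i).image g, fun F => ?_⟩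
  obtain ⟨F', hF'⟩ := (Finset.subset_set_image_iff (s := univ) (f := g) (t := F)).1
    (by rw [image_univ, hg.range_eq]; exact subset_univ _)
  obtain ⟨i, hi⟩ := h1 F'
  exact ⟨i, by show Finset.image g (f1 i) = F; rw [hi]; exact hF'.2⟩

lemma dens_range {I : Type w} [Infinite I] {β : Type w'} [TopologicalSpace β] {Z : Type v}
    [TopologicalSpace Z] (hd : Dens I β) (g : β → Z) (hg : Continuous g) :
    Dens I (range g) := by
  rcases hd with h | ⟨s, hs⟩
  · exact Or.inl ⟨fun ⟨_, b, _⟩ => h.false b⟩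
  · refine Or.inr ⟨fun i => ⟨g (s i), _, rfl⟩, ?_⟩
    have h1 : DenseRange (rangeFactorization g) := rangeFactorization_surjective.denseRange
    exact h1.comp hs (hg.subtype_mk _)

lemma dens_prod {I : Type w} [Infinite I] {β : Type w'} [TopologicalSpace β]
    (hd : Dens I β) : Dens I (β × β) := by
  rcases hd with h | ⟨s, hs⟩
  · exact Or.inl inferInstance
  · obtain ⟨f, hf⟩ := surj_prod I
    refine Or.inr ⟨Prod.map s s ∘ f, ?_⟩
    rw [DenseRange, hf.range_comp]
    exact hs.prodMap hs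

/-- the case of a compact factor -/
lemma weight {X : Type u} {K : Type v} {β : Type w'} [TopologicalSpace X] [TopologicalSpace K]
    [CompactSpace K] [TopologicalSpace β] [CompactSpace β] (I : Type w) [Infinite I]
    (v : β → C(X × K, ℝ)) (hv : ∀ p, Continuous fun b => v b p)
    (hi : Injective v) (hd : Dens I β)
    (H : ∀ S : Set (Cp X), IsCompact S → Dens I S → Wt I S) : Wt I β := by
  classical
  rcases hd with hE | ⟨s, hs⟩
  · refine ⟨fun _ => ∅, isTopologicalBasis_of_isOpen_of_nhds ?_ fun z => (hE.false z).elim⟩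
    rintro _ ⟨_, rfl⟩
    exact isOpen_empty
  rcases isEmpty_or_nonempty β with hE | ⟨⟨c0⟩⟩
  · refine ⟨fun _ => ∅, isTopologicalBasis_of_isOpen_of_nhds ?_ fun z => (hE.false z).elim⟩
    rintro _ ⟨_, rfl⟩
    exact isOpen_empty
  obtain ⟨G, g1, g2, g3, g4, g5⟩ := theta v hv hi
  let g : Finset β × ℕ → β × β → Cp X := fun i b => ⟨G i b, g2 i b⟩
  have hg : ∀ i, Continuous (g i) := fun i => (g1 i).subtype_mk _
  have hW : ∀ i, Wt I (range (g i)) := fun i =>
    H _ (isCompact_range (hg i)) (dens_range (dens_prod (Or.inr ⟨s, hs⟩)) _ (hg i))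
  choose e he using hW
  have hcs : ∀ i, CompactSpace (range (g i)) := fun i =>
    isCompact_iff_compactSpace.1 (isCompact_range (hg i))
  let O : ∀ i, range (g i) := fun i => ⟨g i (c0, c0), _, rfl⟩
  have hO : ∀ i c, g i (c, c) = (O i).1 := fun i c => Subtype.ext ((g4 i c).trans (g4 i c0).symm)
  have hu : ∀ i j, ∃ u : C(range (g i), ℝ), u (O i) = 0 ∧
      (O i ∉ closure (e i j) → ∀ p ∈ closure (e i j), u p = 1) := fun i j => by
    by_cases h : O i ∈ closure (e i j)
    · exact ⟨0, rfl, fun h' => (h' h).elim⟩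
    · obtain ⟨u, u1, u2, -⟩ := exists_continuous_zero_one_of_isClosed
        (isClosed_singleton (x := O i)) (isClosed_closure (s := e i j))
        (disjoint_singleton_left.2 h)
      exact ⟨u, u1 rfl, fun _ p hp => u2 hp⟩
  choose u u1 u2 using hu
  let hh : ((Finset I × ℕ) × I) → C(β × β, ℝ) := fun a =>
    (u (a.1.1.image s, a.1.2) a.2).comp ⟨fun b => ⟨g (a.1.1.image s, a.1.2) b, _, rfl⟩,
      (hg _).subtype_mk _⟩
  let Φ : ((Finset I × ℕ) × I) → β → C(β, ℝ) := fun a => (hh a).curry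
  have hΦ : ∀ a, Continuous (Φ a) := fun a => (hh a).curry.continuous
  have hc2 : ∀ a, CompactSpace (range (Φ a)) := fun a =>
    isCompact_iff_compactSpace.1 (isCompact_range (hΦ a))
  have hZ : ∀ a, Wt I (range (Φ a)) := fun a => wt_of_secondCountable I
  refine wt_of_separating (surj_big I) hZ (fun a b => (⟨Φ a b, b, rfl⟩ : range (Φ a)))
    (fun a => (hΦ a).subtype_mk _) fun b c hbc => ?_
  by_contra hne
  obtain ⟨i, i1, i2⟩ := g5 (range s) c (by rw [hs.closure_range]; trivial) b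
    (by rw [hs.closure_range]; trivial) (Ne.symm hne)
  obtain ⟨F, hF⟩ : ∃ F : Finset I, F.image s = i.1 := by
    obtain ⟨F, hF⟩ := (Finset.subset_set_image_iff (s := univ) (f := s) (t := i.1)).1
      (by rwa [image_univ])
    exact ⟨F, hF.2⟩
  have hi' : i = (F.image s, i.2) := by rw [hF]
  rw [hi'] at i2
  set i' : Finset β × ℕ := (F.image s, i.2) with hi'
  have h1 : (⟨g i' (c, b), _, rfl⟩ : range (g i')) ≠ O i' := by
    intro h
    have h2 := congrArg (fun p => p.1.1) h
    exact i2 (h2.trans (g4 i' c0))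
  obtain ⟨V, ⟨hV1, hV2⟩, hV3⟩ := (closed_nhds_basis _).mem_iff.1 (isOpen_ne.mem_nhds h1)
  obtain ⟨_, ⟨j, rfl⟩, hj1, hj2⟩ := (he i').mem_nhds_iff.1 hV1
  have h3 : O i' ∉ closure (e i' j) := fun h => hV3 (closure_minimal hj2 hV2 h) rfl
  have h4 := u2 i' j h3 _ (subset_closure hj1)
  have h5 := congrArg (fun p => p.1 b) (hbc ((F, i.2), j))
  have h6 : hh ((F, i.2), j) (b, b) = hh ((F, i.2), j) (c, b) := h5
  have h7 : hh ((F, i.2), j) (b, b) = 0 := by
    show u i' j ⟨g i' (b, b), _⟩ = 0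
    rw [← u1 i' j]
    congr 1
    exact Subtype.ext (hO i' b)
  have h8 : hh ((F, i.2), j) (c, b) = 1 := h4
  rw [h7, h8] at h6
  exact zero_ne_one h6

end Pool.Agent.KS6_59.CP
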