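import Mathlib
import Pool.Agent.KS6_59.CP.Weight

set_option autoImplicit false
open Set Function Topology Filter TopologicalSpace

namespace Pool.Agent.KS6_59.CP
universe u v w w' w''

section compact

variable {X : Type u} {K : Type v} [TopologicalSpace X] [TopologicalSpace K]
  [CompactSpace K] (I : Type w) [Infinite I]

lemma tight_compact (HX : ∀ S : Set (Cp X), IsCompact S → Tight I S) (T : Set (Cp (X × K)))
    (hT : IsCompact T) : Tight I T := by
  have : CompactSpace T := isCompact_iff_compactSpace.1 hT
  refine tight I (fun b : T => (⟨b.1.1, b.1.2⟩ : C(X × K, ℝ))) (fun p => ?_) (fun b c h => ?_)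
    fun θ t1 t2 S c hc => ?_
  · exact (continuous_apply p).comp (continuous_subtype_val.comp continuous_subtype_val)
  · apply Subtype.ext
    apply Subtype.ext
    exact congrArg (fun f : C(X × K, ℝ) => (f : X × K → ℝ)) h
  · let θ' : T → Cp X := fun b => ⟨θ b, t2 b⟩
    have hθ' : Continuous θ' := t1.subtype_mk _
    let q : T → range θ' := fun b => ⟨θ' b, b, rfl⟩
    have hq : Continuous q := hθ'.subtype_mk _
    obtain ⟨g, hg1, hg2⟩ := HX _ (isCompact_range hθ') (q '' S) (q c)
      (image_closure_subset_closure_image hq (mem_image_of_mem q hc))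
    have h3 : ∀ i, ∃ s ∈ S, q s = g i := fun i => hg1 ⟨i, rfl⟩
    choose g' g1 g2 using h3
    refine ⟨g', range_subset_iff.2 g1, ?_⟩
    have h4 : range g = q '' range g' := by
      rw [← range_comp]
      congr 1
      exact (funext g2).symm
    rw [h4] at hg2
    have h5 : Continuous fun p : range θ' => p.1.1 :=
      continuous_subtype_val.comp continuous_subtype_val
    have h6 := image_closure_subset_closure_image h5 (mem_image_of_mem _ hg2)
    rw [image_image] at h6
    exact h6

lemma weight_compact (HX : ∀ S : Set (Cp X), IsCompact S → Dens I S → Wt I S)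
    (T : Set (Cp (X × K))) (hT : IsCompact T) (hd : Dens I T) : Wt I T := by
  have : CompactSpace T := isCompact_iff_compactSpace.1 hT
  refine weight I (fun b : T => (⟨b.1.1, b.1.2⟩ : C(X × K, ℝ))) (fun p => ?_) (fun b c h => ?_)
    hd HX
  · exact (continuous_apply p).comp (continuous_subtype_val.comp continuous_subtype_val)
  · apply Subtype.ext
    apply Subtype.ext
    exact congrArg (fun f : C(X × K, ℝ) => (f : X × K → ℝ)) h

end compact

section dense

variable {X : Type u} {Y : Type v} [TopologicalSpace X] [TopologicalSpace Y]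

/-- restriction to `X × L` -/
def res (L : Set Y) (f : Cp (X × Y)) : Cp (X × L) :=
  ⟨fun p => f.1 (p.1, p.2.1), f.2.comp (by fun_prop)⟩

lemma res_continuous (L : Set Y) : Continuous (res (X := X) L) :=
  (continuous_pi fun p => (continuous_apply (p.1, p.2.1)).comp continuous_subtype_val).subtype_mk _

variable (I : Type w) [Infinite I] {K : I → Set Y} (hK : ∀ i, IsCompact (K i))
  (hd : Dense (⋃ i, K i))
include hd

omit [Infinite I] in
lemma eq_of_res {f g : Cp (X × Y)} (h : ∀ i, res (K i) f = res (K i) g) : f = g := by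
  apply Subtype.ext
  have h1 : Dense (univ ×ˢ (⋃ i, K i) : Set (X × Y)) := dense_univ.prod hd
  refine Continuous.ext_on h1 f.2 g.2 ?_
  rintro ⟨x, y⟩ ⟨-, hy⟩
  obtain ⟨i, hi⟩ := mem_iUnion.1 hy
  exact congrFun (congrArg Subtype.val (h i)) (x, ⟨y, hi⟩)

include hK

lemma tight_dense (HX : ∀ S : Set (Cp X), IsCompact S → Tight I S) (T : Set (Cp (X × Y)))
    (hT : IsCompact T) : Tight I T := by
  classical
  have : CompactSpace T := isCompact_iff_compactSpace.1 hT
  intro A z hz
  let L : Finset I → Set Y := fun J => ⋃ i ∈ J, K i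
  have hL : ∀ J, CompactSpace (L J) := fun J =>
    isCompact_iff_compactSpace.1 (J.isCompact_biUnion fun i _ => hK i)
  let r : ∀ J, T → Cp (X × L J) := fun J f => res (L J) f.1
  have hr : ∀ J, Continuous (r J) := fun J => (res_continuous _).comp continuous_subtype_val
  have h1 : ∀ J, ∃ g : I → T, range g ⊆ A ∧ r J z ∈ closure (r J '' range g) := fun J => by
    let q : T → range (r J) := fun b => ⟨r J b, b, rfl⟩
    have hq : Continuous q := (hr J).subtype_mk _
    obtain ⟨g, hg1, hg2⟩ := tight_compact I HX _ (isCompact_range (hr J)) (q '' A) (q z)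
      (image_closure_subset_closure_image hq (mem_image_of_mem q hz))
    have h3 : ∀ i, ∃ s ∈ A, q s = g i := fun i => hg1 ⟨i, rfl⟩
    choose g' g1 g2 using h3
    refine ⟨g', range_subset_iff.2 g1, ?_⟩
    have h4 : range g = q '' range g' := by
      rw [← range_comp]
      congr 1
      exact (funext g2).symm
    rw [h4] at hg2
    have h6 := image_closure_subset_closure_image continuous_subtype_val
      (mem_image_of_mem _ hg2)
    rw [image_image] at h6
    exact h6
  choose g g1 g2 using h1
  obtain ⟨f1, hf1⟩ := surj_finset I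
  obtain ⟨f2, hf2⟩ := surj_prod I
  let B : I → T := fun i => g (f1 (f2 i).1) (f2 i).2
  have hB : ∀ J, range (g J) ⊆ range B := by
    rintro J _ ⟨i, rfl⟩
    obtain ⟨a, ha⟩ := hf1 J
    obtain ⟨b, hb⟩ := hf2 (a, i)
    exact ⟨b, by simp only [B, hb, ha]⟩
  refine ⟨B, by rintro _ ⟨i, rfl⟩; exact g1 _ ⟨_, rfl⟩, by_contra fun hn => ?_⟩
  obtain ⟨F, hF⟩ := isClosed_closure.isCompact.elim_finite_subcover (s := closure (range B))
    (fun j : I => {b | res (K j) b.1 ≠ res (K j) z.1})
    (fun j => isOpen_ne_fun ((res_continuous _).comp continuous_subtype_val) continuous_const)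
    fun b hb => by
      by_contra hcon
      simp only [mem_iUnion, mem_ofPred_eq, not_exists, not_not] at hcon
      exact hn (Subtype.ext (eq_of_res I hd hcon) ▸ hb)
  have h5 : r F z ∈ r F '' closure (range B) := by
    have h6 : IsClosed (r F '' closure (range B)) :=
      (isClosed_closure.isCompact.image (hr F)).isClosed
    refine closure_minimal ?_ h6 (g2 F)
    exact image_mono ((hB F).trans subset_closure)
  obtain ⟨b, b1, b2⟩ := h5
  obtain ⟨j, j1, j2⟩ := mem_iUnion₂.1 (hF b1)
  apply j2
  apply Subtype.ext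
  funext p
  have h7 : p.2.1 ∈ L F := mem_biUnion j1 p.2.2
  exact congrFun (congrArg Subtype.val b2) (p.1, ⟨p.2.1, h7⟩)

lemma weight_dense (HX : ∀ S : Set (Cp X), IsCompact S → Dens I S → Wt I S)
    (T : Set (Cp (X × Y))) (hT : IsCompact T) (hdT : Dens I T) : Wt I T := by
  classical
  have : CompactSpace T := isCompact_iff_compactSpace.1 hT
  have hL : ∀ i, CompactSpace (K i) := fun i => isCompact_iff_compactSpace.1 (hK i)
  let r : ∀ i, T → Cp (X × K i) := fun i f => res (K i) f.1
  have hr : ∀ i, Continuous (r i) := fun i => (res_continuous _).comp continuous_subtype_val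
  have hA : ∃ s : I → Finset (I × I), Surjective s := by
    obtain ⟨f1, hf1⟩ := surj_finset I
    obtain ⟨f2, hf2⟩ := surj_prod I
    refine ⟨fun i => (f1 i).image f2, fun F => ?_⟩
    obtain ⟨F', hF'⟩ := (Finset.subset_set_image_iff (s := univ) (f := f2) (t := F)).1
      (by rw [image_univ, hf2.range_eq]; exact subset_univ _)
    obtain ⟨i, hi⟩ := hf1 F'
    exact ⟨i, by show Finset.image f2 (f1 i) = F; rw [hi]; exact hF'.2⟩
  refine wt_of_separating hA (Z := fun i => range (r i)) (fun i => ?_)
    (fun i b => (⟨r i b, b, rfl⟩ : range (r i)))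
    (fun i => (hr i).subtype_mk _) fun b c hbc => ?_
  · exact weight_compact I HX _ (isCompact_range (hr i)) (dens_range hdT _ (hr i))
  · exact Subtype.ext (eq_of_res I hd fun i => congrArg Subtype.val (hbc i))

end dense

end Pool.Agent.KS6_59.CP
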