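import Mathlib
import Pool.Agent.KS6_59.CP.Dense
import Pool.Graph.R_seed8.Results.MP_e70507_gt.CompactTightness

set_option autoImplicit false
open Set Function Topology Filter TopologicalSpace

namespace Pool.Agent.KS6_59.CP
universe u v w w' w''

open Pool.Agent.Results.MP_e70507_gt.CompactTightness (Lip isCompact_lip lip_continuous)

/-- If all compact subspaces of `C_p(M)` have tightness at most `|I|`, `M` metrizable, then `M`
has density at most `|I|`. -/
lemma dens_of_tight (I : Type w) [Infinite I] {M : Type u} [PseudoMetricSpace M]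
    (h : ∀ S : Set (Cp M), IsCompact S → Tight I S) : Dens I M := by
  classical
  rcases isEmpty_or_nonempty M with hE | ⟨⟨x0⟩⟩
  · exact Or.inl hE
  right
  have : CompactSpace (Lip M) := isCompact_iff_compactSpace.mp isCompact_lip
  let Θ : Lip M → Cp M := fun φ => ⟨φ.1, lip_continuous φ.2⟩
  have hΘ : Continuous Θ := continuous_subtype_val.subtype_mk _
  have hmem : ∀ s : Finset M,
      (fun m => min 1 (Metric.infDist m (insert x0 (s : Set M)))) ∈ Lip M := by
    intro s
    refine ⟨fun m => ⟨le_min zero_le_one Metric.infDist_nonneg, min_le_left _ _⟩, ?_⟩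
    intro m m'
    have h1 : |min 1 (Metric.infDist m (insert x0 (s : Set M))) -
        min 1 (Metric.infDist m' (insert x0 (s : Set M)))| ≤
        max |(1:ℝ) - 1| |Metric.infDist m (insert x0 (s : Set M)) -
          Metric.infDist m' (insert x0 (s : Set M))| := abs_min_sub_min_le_max _ _ _ _
    refine h1.trans ?_
    have h2 := (Metric.lipschitz_infDist_pt (insert x0 (s : Set M))).dist_le_mul m m'
    rw [Real.dist_eq] at h2
    simp only [sub_self, abs_zero, NNReal.coe_one, one_mul] at h2 ⊢
    exact max_le dist_nonneg h2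
  let Φ : Finset M → range Θ := fun s => ⟨Θ ⟨_, hmem s⟩, ⟨_, rfl⟩⟩
  have h0mem : (fun _ => 0 : M → ℝ) ∈ Lip M := ⟨fun m => by simp, fun m m' => by simp⟩
  let z : range Θ := ⟨Θ ⟨_, h0mem⟩, ⟨_, rfl⟩⟩
  have hz : z ∈ closure (range Φ) := by
    refine mem_closure_of_tendsto (b := atTop) (f := Φ) ?_ (Eventually.of_forall fun s => ⟨s, rfl⟩)
    rw [tendsto_subtype_rng, tendsto_subtype_rng, tendsto_pi_nhds]
    intro x
    refine tendsto_const_nhds.congr' ?_
    filter_upwards [eventually_ge_atTop ({x} : Finset M)] with s hs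
    have hx : x ∈ s := by simpa using hs
    have : Metric.infDist x (insert x0 (s : Set M)) = 0 :=
      Metric.infDist_zero_of_mem (Or.inr hx)
    simp [z, Φ, Θ, this]
  obtain ⟨g, hg1, hg2⟩ := h _ (isCompact_range hΘ) _ _ hz
  have hg3 : ∀ i, ∃ s, Φ s = g i := fun i => hg1 ⟨i, rfl⟩
  choose σ hσ using hg3
  have hc : ∀ i, ∃ e : ℕ → M, insert x0 (σ i : Set M) = range e := fun i =>
    ((Finset.countable_toSet _).insert _).exists_eq_range (insert_nonempty _ _)
  choose e he using hc
  obtain ⟨f2, hf2⟩ := surj_prod I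
  obtain ⟨f3, hf3⟩ := surj_nat I
  refine ⟨fun i => e (f2 i).1 (f3 (f2 i).2), fun x => ?_⟩
  rw [Metric.mem_closure_iff]
  intro ε hε
  have hopen : IsOpen {c : range Θ | |c.1.1 x| < min ε 1} := by
    refine isOpen_lt ?_ continuous_const
    exact ((continuous_apply x).comp
      (continuous_subtype_val.comp continuous_subtype_val)).abs
  have hzin : z ∈ {c : range Θ | |c.1.1 x| < min ε 1} := by
    simp [z, Θ, hε]
  obtain ⟨_, hb1, ⟨i, rfl⟩⟩ := mem_closure_iff.mp hg2 _ hopen hzin
  have hb4 : |min 1 (Metric.infDist x (insert x0 (σ i : Set M)))| < min ε 1 := by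
    have : |(g i).1.1 x| < min ε 1 := hb1
    rw [← hσ i] at this
    exact this
  rw [abs_of_nonneg (le_min zero_le_one Metric.infDist_nonneg)] at hb4
  have hb5 : Metric.infDist x (insert x0 (σ i : Set M)) < ε := by
    by_contra hcon
    push Not at hcon
    have h6 : min ε 1 ≤ min 1 (Metric.infDist x (insert x0 (σ i : Set M))) :=
      le_min (min_le_right _ _) ((min_le_left _ _).trans hcon)
    linarith
  obtain ⟨y, hy1, hy2⟩ := (Metric.infDist_lt_iff (insert_nonempty _ _)).mp hb5
  rw [he i] at hy1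
  obtain ⟨n, rfl⟩ := hy1
  obtain ⟨k, hk⟩ := hf3 n
  obtain ⟨l, hl⟩ := hf2 (i, k)
  exact ⟨_, ⟨l, rfl⟩, by simp only [hl, hk]; exact hy2⟩

end Pool.Agent.KS6_59.CP
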