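import Mathlib
import Pool.Agent.KS6_59.CP.Metric

set_option autoImplicit false
open Set Function Topology Filter TopologicalSpace

namespace Pool.Agent.KS6_59.CP
universe u v w w' w''

/-- clopen subsets of a compact space of weight at most `|I|` -/
lemma clopen_card {I : Type w} [Infinite I] {β : Type u} [TopologicalSpace β] [CompactSpace β]
    (h : Wt I β) {E : Type v} (c : E → Set β) (hc : ∀ e, IsClopen (c e)) (hi : Injective c) :
    ∃ f : E → I, Injective f := by
  classical
  obtain ⟨B, hB⟩ := h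
  have h1 : ∀ e, ∃ F : Finset I, c e = ⋃ i ∈ F, B i := fun e => by
    obtain ⟨F, hF⟩ := (hc e).isClosed.isCompact.elim_finite_subcover
      (fun i : {i : I // B i ⊆ c e} => B i) (fun i => hB.isOpen ⟨_, rfl⟩) fun x hx => by
        obtain ⟨_, ⟨i, rfl⟩, i1, i2⟩ := hB.exists_subset_of_mem_open hx (hc e).isOpen
        exact mem_iUnion.2 ⟨⟨i, i2⟩, i1⟩
    refine ⟨F.image (·.1), Subset.antisymm (fun x hx => ?_) ?_⟩
    · obtain ⟨i, i1, i2⟩ := mem_iUnion₂.1 (hF hx)
      exact mem_biUnion (Finset.mem_coe.2 (Finset.mem_image_of_mem _ i1)) i2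
    · refine iUnion₂_subset fun i hi => ?_
      obtain ⟨j, -, rfl⟩ := Finset.mem_image.1 hi
      exact j.2
  choose F hF using h1
  obtain ⟨f1, hf1⟩ := surj_finset I
  refine ⟨fun e => surjInv hf1 (F e), fun e e' h => hi ?_⟩
  rw [hF e, hF e', injective_surjInv hf1 h]

lemma exists_maximal_sep {M : Type u} [PseudoMetricSpace M] (ε : ℝ) :
    ∃ D : Set M, (∀ d ∈ D, ∀ d' ∈ D, d ≠ d' → ε ≤ dist d d') ∧
      (0 < ε → ∀ x, ∃ d ∈ D, dist x d < ε) := by
  obtain ⟨D, hD⟩ := zorn_subset {D : Set M | ∀ d ∈ D, ∀ d' ∈ D, d ≠ d' → ε ≤ dist d d'}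
    fun c hc hch => ⟨⋃₀ c, fun d hd d' hd' hne => by
      obtain ⟨s, hs, hds⟩ := hd
      obtain ⟨s', hs', hds'⟩ := hd'
      rcases hch.total hs hs' with h | h
      · exact hc hs' d (h hds) d' hds' hne
      · exact hc hs d hds d' (h hds') hne, fun s hs => subset_sUnion_of_mem hs⟩
  refine ⟨D, hD.prop, fun hε x => ?_⟩
  by_contra hcon
  push Not at hcon
  have h1 : insert x D ∈ {D : Set M | ∀ d ∈ D, ∀ d' ∈ D, d ≠ d' → ε ≤ dist d d'} := by
    rintro d (rfl | hd) d' (rfl | hd') hne
    · exact (hne rfl).elim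
    · exact hcon _ hd'
    · rw [dist_comm]; exact hcon _ hd
    · exact hD.prop d hd d' hd' hne
  have h2 := hD.le_of_ge h1 (subset_insert x D) (mem_insert x D)
  have h3 := hcon x h2
  rw [dist_self] at h3
  exact absurd h3 (not_le.2 hε)

open Pool.Agent.Results.MP_e70507_gt.CompactTightness (Lip isCompact_lip lip_continuous)

lemma not_inj {I : Type w} [Infinite I] {M : Type u} [PseudoMetricSpace M]
    (h : ∀ S : Set (Cp M), IsCompact S → Dens I S → Wt I S) (ε : ℝ) (hε : 0 < ε) (D : Set M)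
    (hD : ∀ d ∈ D, ∀ d' ∈ D, d ≠ d' → ε ≤ dist d d') {E : Type v} (jD : E → D)
    (hjD : Injective jD) (jI : E → Set I) (hjI : Injective jI) : ∃ f : E → I, Injective f := by
  classical
  rcases isEmpty_or_nonempty E with hE | ⟨⟨e0⟩⟩
  · exact ⟨fun e => (hE.false e).elim, fun e => (hE.false e).elim⟩
  set δ : ℝ := min ε 1 with hδ
  have hδ0 : 0 < δ := lt_min hε one_pos
  let A : I → Set M := fun i => {d | ∃ e, (jD e).1 = d ∧ (i ∈ jI e ∨ e = e0)}
  have hA0 : ∀ i, (A i).Nonempty := fun i => ⟨_, e0, rfl, Or.inr rfl⟩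
  let g : I → M → ℝ := fun i y => min δ (Metric.infDist y (A i))
  have hg : ∀ i, g i ∈ Lip M := fun i => by
    refine ⟨fun m => ⟨le_min hδ0.le Metric.infDist_nonneg, (min_le_left _ _).trans
      (min_le_right _ _)⟩, fun m m' => ?_⟩
    have h1 : |g i m - g i m'| ≤ max |δ - δ| |Metric.infDist m (A i) - Metric.infDist m' (A i)| :=
      abs_min_sub_min_le_max _ _ _ _
    refine h1.trans ?_
    have h2 := (Metric.lipschitz_infDist_pt (A i)).dist_le_mul m m'
    rw [Real.dist_eq] at h2
    simp only [sub_self, abs_zero, NNReal.coe_one, one_mul] at h2 ⊢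
    exact max_le dist_nonneg h2
  have g0 : ∀ i e, (i ∈ jI e ∨ e = e0) → g i (jD e) = 0 := fun i e he => by
    have h1 : Metric.infDist (jD e).1 (A i) = 0 := Metric.infDist_zero_of_mem ⟨e, rfl, he⟩
    simp only [g, h1]
    exact min_eq_right hδ0.le
  have g1 : ∀ i e, ¬ (i ∈ jI e ∨ e = e0) → g i (jD e) = δ := fun i e he => by
    have h1 : ε ≤ Metric.infDist (jD e).1 (A i) := by
      refine (Metric.le_infDist (hA0 i)).2 ?_
      rintro _ ⟨e', rfl, he'⟩
      refine hD _ (jD e).2 _ (jD e').2 fun h => he ?_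
      rwa [hjD (Subtype.ext h)]
    exact min_eq_left ((min_le_left _ _).trans h1)
  have : CompactSpace (Lip M) := isCompact_iff_compactSpace.mp isCompact_lip
  let Θ : Lip M → Cp M := fun φ => ⟨φ.1, lip_continuous φ.2⟩
  have hΘ : Continuous Θ := continuous_subtype_val.subtype_mk _
  let G : I → Cp M := fun i => Θ ⟨g i, hg i⟩
  have hS : IsCompact (closure (range G)) := (isCompact_range hΘ).closure_of_subset
    (by rintro _ ⟨i, rfl⟩; exact ⟨_, rfl⟩)
  have hdS : Dens I (closure (range G)) := by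
    refine Or.inr ⟨fun i => ⟨G i, subset_closure ⟨i, rfl⟩⟩, ?_⟩
    rw [DenseRange, Subtype.dense_iff, ← range_comp]
    exact subset_rfl
  have hW := h _ hS hdS
  have hcS : CompactSpace (closure (range G)) := isCompact_iff_compactSpace.1 hS
  have hev : ∀ m : M, Continuous fun f : closure (range G) => f.1.1 m := fun m =>
    (continuous_apply m).comp (continuous_subtype_val.comp continuous_subtype_val)
  have h2 : ∀ (f : closure (range G)) (e : E), f.1.1 (jD e) = 0 ∨ f.1.1 (jD e) = δ := by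
    intro f e
    have h3 : IsClosed {f : Cp M | f.1 (jD e) = 0 ∨ f.1 (jD e) = δ} :=
      (isClosed_eq ((continuous_apply _).comp continuous_subtype_val) continuous_const).union
        (isClosed_eq ((continuous_apply _).comp continuous_subtype_val) continuous_const)
    refine closure_minimal ?_ h3 f.2
    rintro _ ⟨i, rfl⟩
    by_cases he : i ∈ jI e ∨ e = e0
    · exact Or.inl (g0 i e he)
    · exact Or.inr (g1 i e he)
  let c : {e : E // e ≠ e0} → Set (closure (range G)) := fun e => {f | f.1.1 (jD e.1) = 0}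
  have hc : ∀ e, IsClopen (c e) := fun e => by
    refine ⟨isClosed_eq (hev _) continuous_const, ?_⟩
    have h3 : (c e)ᶜ = {f | f.1.1 (jD e.1) = δ} := by
      ext f
      simp only [c, mem_compl_iff, mem_ofPred_eq]
      constructor
      · intro h; exact (h2 f e.1).resolve_left h
      · intro h h'; rw [h'] at h; exact hδ0.ne h
    rw [← isClosed_compl_iff, h3]
    exact isClosed_eq (hev _) continuous_const
  have hci : Injective c := by
    intro e e' hee
    apply Subtype.ext
    apply hjI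
    ext i
    have h4 : (⟨G i, subset_closure ⟨i, rfl⟩⟩ : closure (range G)) ∈ c e ↔
        (⟨G i, subset_closure ⟨i, rfl⟩⟩ : closure (range G)) ∈ c e' := by rw [hee]
    have h5 : ∀ e : {e : E // e ≠ e0},
        (⟨G i, subset_closure ⟨i, rfl⟩⟩ : closure (range G)) ∈ c e ↔ i ∈ jI e.1 := by
      intro e
      constructor
      · intro h
        by_contra hi
        have h6 : g i (jD e.1) = 0 := h
        rw [g1 i e.1 (by rintro (h | h); exacts [hi h, e.2 h])] at h6
        exact hδ0.ne' h6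
      · intro h; exact g0 i e.1 (Or.inl h)
    rw [← h5 e, h4, h5 e']
  obtain ⟨f, hf⟩ := clopen_card hW c hc hci
  obtain ⟨f4, hf4⟩ : ∃ f : I → Option I, Surjective f :=
    exists_surj I (by
      rw [Cardinal.mk_option, Cardinal.add_one_eq (Cardinal.aleph0_le_mk I)])
  refine ⟨fun e => surjInv hf4 (if h : e = e0 then none else some (f ⟨e, h⟩)), ?_⟩
  intro e e' hee
  have h6 := injective_surjInv hf4 hee
  by_cases h7 : e = e0 <;> by_cases h8 : e' = e0
  · rw [h7, h8]
  · rw [dif_pos h7, dif_neg h8] at h6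
    exact (Option.some_ne_none _ h6.symm).elim
  · rw [dif_neg h7, dif_pos h8] at h6
    exact (Option.some_ne_none _ h6).elim
  · rw [dif_neg h7, dif_neg h8] at h6
    exact congrArg Subtype.val (hf (Option.some_injective _ h6))

/-- If the compact subspaces of density at most `|I|` of `C_p(M)` have weight at most `|I|`,
`M` metrizable, then `M` has density at most `|I|`. -/
lemma dens_of_mono (I : Type w) [Infinite I] {M : Type u} [PseudoMetricSpace M]
    (h : ∀ S : Set (Cp M), IsCompact S → Dens I S → Wt I S) : Dens I M := by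
  classical
  rcases isEmpty_or_nonempty M with hE | ⟨⟨x0⟩⟩
  · exact Or.inl hE
  right
  -- separated sets are small
  have key : ∀ (ε : ℝ), 0 < ε → ∀ D : Set M, (∀ d ∈ D, ∀ d' ∈ D, d ≠ d' → ε ≤ dist d d') →
      ∃ f : D → I, Injective f := by
    intro ε hε D hD
    by_contra hcon
    obtain ⟨E, jD, hjD, jI, hjI, hE⟩ : ∃ (E : Type (max u w)) (jD : E → D) (_ : Injective jD)
        (jI : E → Set I) (_ : Injective jI), ¬ ∃ f : E → I, Injective f := by
      rcases le_total (Cardinal.lift.{w} (Cardinal.mk D))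
        (Cardinal.lift.{u} (Cardinal.mk (Set I))) with hle | hle
      · obtain ⟨e⟩ := Cardinal.lift_mk_le'.1 hle
        refine ⟨ULift.{w} D, ULift.down, ULift.down_injective, fun x => e x.down,
          e.injective.comp ULift.down_injective, fun ⟨f, hf⟩ => hcon ⟨fun d => f ⟨d⟩, ?_⟩⟩
        exact fun a b hab => congrArg ULift.down (hf hab)
      · obtain ⟨e⟩ := Cardinal.lift_mk_le'.1 hle
        refine ⟨ULift.{u} (Set I), fun x => e x.down, e.injective.comp ULift.down_injective,
          ULift.down, ULift.down_injective, fun ⟨f, hf⟩ => ?_⟩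
        exact cantor_injective (fun s : Set I => f ⟨s⟩) fun a b hab =>
          congrArg ULift.down (hf hab)
    refine hE (not_inj h ε hε D hD jD hjD jI hjI)
  -- the union of the maximal separated sets
  obtain ⟨f2, hf2⟩ := surj_prod I
  obtain ⟨f3, hf3⟩ := surj_nat I
  choose D hD1 hD2 using fun n : ℕ => exists_maximal_sep (M := M) (1 / ((n : ℝ) + 1))
  have hpos : ∀ n : ℕ, 0 < 1 / ((n : ℝ) + 1) := fun n => by positivity
  choose f hf using fun n => key _ (hpos n) (D n) (hD1 n)
  have hne : ∀ n, Nonempty (D n) := fun n => by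
    obtain ⟨d, hd, -⟩ := hD2 n (hpos n) x0
    exact ⟨⟨d, hd⟩⟩
  refine ⟨fun i => (invFun (f (f3 (f2 i).1)) (f2 i).2).1, fun x => ?_⟩
  rw [Metric.mem_closure_iff]
  intro ε hε
  obtain ⟨n, hn⟩ := exists_nat_one_div_lt hε
  obtain ⟨d, hd, hd2⟩ := hD2 n (hpos n) x
  obtain ⟨a, ha⟩ := hf3 n
  obtain ⟨b, hb⟩ := hf2 (a, f n ⟨d, hd⟩)
  refine ⟨_, ⟨b, rfl⟩, ?_⟩
  have h1 : (invFun (f (f3 (f2 b).1)) (f2 b).2).1 = d := by
    rw [hb]
    show (invFun (f (f3 a)) (f n ⟨d, hd⟩)).1 = d
    rw [ha, leftInverse_invFun (hf n)]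
  show dist x (invFun (f (f3 (f2 b).1)) (f2 b).2).1 < ε
  rw [h1]
  exact hd2.trans hn

end Pool.Agent.KS6_59.CP
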